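import Mathlib
import Pool.Agent.H568.Tr2

/-!
# At most `5/3` of the expected primes in almost all quadratic polynomials of height `H`, for lengths up to `H^(3-ε)`

The leading coefficient `a > 0` is fixed. For 100 percent of the pairs of integers `|b|, |c| ≤ H` and every length `N`
with `H² ≤ N ≤ H^(3-ε)` every interval in `[1, N]` contains at most `5/3 + η` times as many primes `a m² + b m + c` as
Conjecture F predicts, with the full constant. There are only about `N^(2/3)` polynomials, and their values are as large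
as `N²`. The parity barrier of the sieve is the factor `2` (the linear sieve gives `4` for one polynomial), and the bound
is below it. The companion `HalfBeyondHeight` is the lower bound with the factor `1/2`.

Proof. Completing the square, the pairs are a family of about `H²` constant terms, which are made positive by a second
shift: it suffices to consider `a n² + b n + c` with `b² ≤ Λ C` and almost all `c ≤ C`, `C ≥ x^(2/3+ε)`. The divisors `j`
of the values with `x^(5/6+ε') < j < x^(1-ε')` are accessible on average over `c` (a large sieve over the roots of the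
congruences; `N792`, `N791` of the library), and so are the divisors `≤ U = x^(5/6-ε')`. The values with a divisor near
`x` are negligible for `C ≥ x^(2/3+ε)` (file `X3W`). After a sieve by the primes `≤ Q = x^(1/3+ε')`, what is left are
products of at most five primes `> Q`. These are sieved with the weights `1`, `-α(p)` for one prime divisor `p`, where
`α = 1` for `p ≤ x^(1/2-ε')`, `α = 1/2` for `p ≤ x^(2/3-ε')` and `α = 0` for the larger `p`, and `1` for two prime
divisors with product `≤ U`; bilinear corrections remove the products of two primes, and most of the products of three,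
four and five primes. This gives a majorant of the indicator function of the primes which is `≤ 1` at the primes
(files `C2` to `C4`, `P2`). The loss are products of three primes `≤ U` (with weight `1 - α - α + ...`), products of two
primes `p q ≤ U` and a third one, and small parts of the products of four and five primes; it is less than `1/3` of
`x / log x`, that is `2/3` of the primes: the integrals over the simplex of the exponents are bounded by Riemann sums
evaluated by the kernel (files `Mn1` to `Mn9`).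
-/

set_option autoImplicit false

namespace Pool.Agent.H568R.UpperBeyondHeight

open Finset Filter Topology

/-- the triple `(a, b, c)` is admissible -/
def Admissible (a b c : ℤ) : Prop :=
  0 < a ∧ (∀ d : ℤ, d ∣ a → d ∣ b → d ∣ c → IsUnit d) ∧ ¬ ((2 : ℤ) ∣ a + b ∧ (2 : ℤ) ∣ c) ∧
    ¬ IsSquare (b ^ 2 - 4 * a * c)

/-- the number of `u < m ≤ v` for which `a m² + b m + c` is a (positive) prime -/
def primeCount (a b c : ℤ) (u v : ℕ) : ℕ :=
  #((Ioc u v).filter (fun m : ℕ => (a * (m : ℤ) ^ 2 + b * m + c).toNat.Prime))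

/-- `2` if `a + b` is even and `1` if `a + b` is odd (twice the `ε` of the problem) -/
noncomputable def eps (a b : ℤ) : ℝ := if (2 : ℤ) ∣ a + b then 2 else 1

/-- the product `∏_{p > 2, p ∣ gcd(a, b)} p / (p - 1)` -/
noncomputable def gcdProd (a b : ℤ) : ℝ :=
  ∏ p ∈ (Int.gcd a b).primeFactors.filter (fun p => 2 < p), (p : ℝ) / (p - 1)

/-- the product `∏_{2 < p ≤ z, p ∤ a} (1 - (D / p) / (p - 1))`, where `D = b² - 4 a c` -/
noncomputable def partialC (a b c : ℤ) (z : ℕ) : ℝ :=
  ∏ p ∈ (Icc 3 z).filter (fun p : ℕ => p.Prime ∧ ¬ (p : ℤ) ∣ a),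
    (1 - (jacobiSym (b ^ 2 - 4 * a * c) p : ℝ) / (p - 1))

/-- the sum of `1 / log |a m² + b m + c|` over the `u < m ≤ v` with `|a m² + b m + c| ≥ 2` -/
noncomputable def logSum (a b c : ℤ) (u v : ℕ) : ℝ :=
  ∑ m ∈ (Ioc u v).filter (fun m : ℕ => 2 ≤ |a * (m : ℤ) ^ 2 + b * m + c|),
    1 / Real.log |(a : ℝ) * m ^ 2 + b * m + c|

/-- The product `C(a, b, c)` converges to a number `S > 0`, and `M = eps(a, b) · S · ∏_{p > 2, p ∣ gcd(a, b)} p / (p - 1)`
(the constant of Hardy and Littlewood for the sum of `1 / log |f|`) is at least `θ`; and every interval `(u, v]` with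
`v ≤ x` contains at most `(5/3) M ∑_{u < m ≤ v} 1 / log |f(m)| + η M x / log x` integers `m` for which
`f(m) = a m² + b m + c` is prime. -/
def Upper (a : ℤ) (θ η : ℝ) (x : ℕ) (b c : ℤ) : Prop :=
  ∃ S : ℝ, 0 < S ∧ Tendsto (fun z => partialC a b c z) atTop (𝓝 S) ∧ θ ≤ eps a b * S * gcdProd a b ∧
    ∀ u v : ℕ, u ≤ v → v ≤ x →
      (primeCount a b c u v : ℝ) ≤ 5 / 3 * (eps a b * S * gcdProd a b * logSum a b c u v) +
        η * (eps a b * S * gcdProd a b * x / Real.log x)

lemma logSum_eq (a b c : ℤ) (u v : ℕ) :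
    logSum a b c u v = ∑ m ∈ Ioc u v, 1 / Real.log ((a : ℝ) * m ^ 2 + b * m + c) := by
  unfold logSum
  rw [sum_filter]
  refine sum_congr rfl fun n _ => ?_
  have e : ((a * (n : ℤ) ^ 2 + b * n + c : ℤ) : ℝ) = (a : ℝ) * n ^ 2 + b * n + c := by push_cast; ring
  split_ifs with h
  · rw [Real.log_abs]
  · rw [← e]
    have h' : a * (n : ℤ) ^ 2 + b * n + c = 0 ∨ a * (n : ℤ) ^ 2 + b * n + c = 1 ∨ a * (n : ℤ) ^ 2 + b * n + c = -1 := by
      rw [not_le] at h
      have := abs_lt.1 h
      omega
    rcases h' with h | h | h <;> rw [h] <;> simp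

lemma upper_of {a : ℤ} {θ η : ℝ} {x : ℕ} {b c : ℤ} (h : Pool.Agent.H568.QLU a θ η x b c) (hadm : Admissible a b c) :
    Upper a θ η x b c := by
  obtain ⟨S, m1, m2, m3, m4⟩ := h hadm
  refine ⟨S, m1, m2, m3, fun u v huv hvx => ?_⟩
  rw [logSum_eq]
  exact m4 u v huv hvx

/-- **At most `5/3` of the expected primes, for 100 percent of the quadratic polynomials of height `H`, for all lengths
`H² ≤ N ≤ H^(3-ε)`.** Let `a > 0`, `ε > 0`, `η > 0`. There are `θ > 0` and `H0` such that for `H ≥ H0` and all `N` with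
`H² ≤ N ≤ H^(3-ε)` all but at most `η H²` of the pairs `(b, c)` of integers with `|b|, |c| ≤ H` and `(a, b, c)` admissible
satisfy `Upper`: every interval `(u, v]` with `v ≤ N` contains at most `5/3` times the expected number of `m` with
`a m² + b m + c` prime, up to an error `η M N / log N`. -/
theorem result (a : ℤ) (ha : 0 < a) (ε η : ℝ) (hε : 0 < ε) (hη : 0 < η) :
    ∃ θ : ℝ, 0 < θ ∧ ∃ H0 : ℕ, ∀ H : ℕ, H0 ≤ H → ∀ N : ℕ, H ^ 2 ≤ N → (N : ℝ) ≤ (H : ℝ) ^ (3 - ε) →
      ∃ Ex ⊆ Icc (-(H : ℤ)) H ×ˢ Icc (-(H : ℤ)) H, (#Ex : ℝ) ≤ η * H ^ 2 ∧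
        ∀ q ∈ Icc (-(H : ℤ)) H ×ˢ Icc (-(H : ℤ)) H, q ∉ Ex → Admissible a q.1 q.2 → Upper a θ η N q.1 q.2 := by
  obtain ⟨θ, hθ, H0, h⟩ := Pool.Agent.H568.pair_U3 a ha ε η hε hη
  refine ⟨θ, hθ, H0, fun H hH N hN1 hN2 => ?_⟩
  obtain ⟨Ex, k1, k2, k3⟩ := h H hH N hN1 hN2
  exact ⟨Ex, k1, k2, fun q hq hqE hadm => upper_of (k3 q hq hqE) hadm⟩

end Pool.Agent.H568R.UpperBeyondHeight
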